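import Pool.Agent.H18.TE.Defs

/-!
# Zariski dense orbits in dimension three by backward heights: the targets
-/

open MvPolynomial
open Pool.Agent.H12.ZD (pmap v O Res DenseOrbit NoInv)
open Pool.Agent.H18.HIT
open Pool.Agent.H8.ZA (HFam Const NA sz)
open Pool.Agent.H8.TD

namespace Pool.Agent.H18.TE

/-! ## A. The height inequality with its error term -/

/-- the height inequality of `T_KIN` before the product formula is used -/
def T_KIL : Prop := ∀ (R K : Type) [CommRing R] [IsDomain R] [Field K] [Algebra Qb R]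
  [Algebra R K] [Algebra Qb K] [IsScalarTower Qb R K] (A B : Fin 3 → R) (g : R) (Q Q' M : ℕ)
  (s t t' : Fin 3 → Qb), Function.Injective (algebraMap R K) → Algebra.trdeg Qb K = 3 →
  IntermediateField.adjoin Qb (Set.range (fun i => algebraMap R K (A i)) ∪
    Set.range (fun i => algebraMap R K (B i))) = ⊤ → 1 ≤ Q → 1 ≤ M →
  Q ≤ dg Qb {lc s (fun i => algebraMap R K (A i)), lc t (fun i => algebraMap R K (B i)),
    lc t' (fun i => algebraMap R K (B i))} →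
  (∀ u u' : Fin 3 → Qb, dg Qb {algebraMap R K g, lc u (fun i => algebraMap R K (B i)),
    lc u' (fun i => algebraMap R K (B i))} ≤ Q') →
  (∀ u u' : Fin 3 → Qb, dg Qb {algebraMap R K g, lc u (fun i => algebraMap R K (B i)),
    lc u' (fun i => algebraMap R K (A i))} ≤ M) →
  (∃ u u' : Fin 3 → Qb, 1 ≤ dg Qb {algebraMap R K g, lc u (fun i => algebraMap R K (B i)),
    lc u' (fun i => algebraMap R K (B i))}) →
  ∃ (b : R) (μ : ℝ), b ≠ 0 ∧ ∀ (K' : IntermediateField ℚ Qb) (F : HFam K'), ∃ c : ℝ,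
    ∀ ev : R →ₐ[Qb] Qb, ev b ≠ 0 →
      (Q : ℝ) * F.ht ![ev g, 0, 0] + μ * lg F (ev b) ≤
        9 * Q' * F.ht (fun i => ev (A i)) + 9 * M * F.ht (fun i => ev (B i)) + c

/-- degrees do not change if two variables are added -/
def T_BCH : Prop := ∀ (k K : Type) [Field k] [Field K] [Algebra k K] (u : K),
  FiniteDimensional (IntermediateField.adjoin k {u}) K →
  dg k ({algebraMap K (FractionRing (MvPolynomial (Fin 2) K)) u,
    algebraMap (MvPolynomial (Fin 2) K) (FractionRing (MvPolynomial (Fin 2) K)) (X 0),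
    algebraMap (MvPolynomial (Fin 2) K) (FractionRing (MvPolynomial (Fin 2) K)) (X 1)} :
      Set (FractionRing (MvPolynomial (Fin 2) K))) = dg k {u}

/-- comparison of the heights of two functions on a curve -/
def T_KCL : Prop := ∀ (R K : Type) [CommRing R] [IsDomain R] [Field K] [Algebra Qb R]
  [Algebra R K] [Algebra Qb K] [IsScalarTower Qb R K] (u ψ : R),
  Function.Injective (algebraMap R K) →
  (∃ y : K, FiniteDimensional (IntermediateField.adjoin Qb {y}) K) →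
  Transcendental Qb u → Transcendental Qb ψ →
  ∃ (b : R) (μ : ℝ), b ∈ Algebra.adjoin Qb {u, ψ} ∧ b ≠ 0 ∧
    ∀ (K' : IntermediateField ℚ Qb) (F : HFam K'), ∃ c : ℝ,
    ∀ ev : R →ₐ[Qb] Qb, ev b ≠ 0 →
      ((dg Qb {algebraMap R K ψ} : ℝ) - 9 * dg Qb {algebraMap R K u}) * F.ht ![ev u, 0, 0] +
        μ * lg F (ev b) ≤ 9 * dg Qb {algebraMap R K u} * F.ht ![ev ψ, 0, 0] + c

/-! ## B. Galois averages -/

/-- existence of the averages -/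
def T_GAL : Prop := ∀ (K : IntermediateField ℚ Qb) (S : Finset Qb),
  ∃ (Γ : Finset (Qb ≃ₐ[K] Qb)) (L : IntermediateField K Qb), (∀ x ∈ S, x ∈ L) ∧ Gc K Γ L

/-- the numbers fixed by all automorphisms -/
def T_FIX : Prop := ∀ (K : IntermediateField ℚ Qb) (x : Qb),
  (∀ τ : Qb ≃ₐ[K] Qb, τ x = x) → x ∈ K

/-- the conjugates of a number are equidistributed among the roots of a polynomial -/
def T_EQD : Prop := ∀ (K : IntermediateField ℚ Qb) (Γ : Finset (Qb ≃ₐ[K] Qb))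
  (L : IntermediateField K Qb), Gc K Γ L → ∀ (P : Polynomial Qb) (r₀ : Qb), P.Monic →
  (∀ j, P.coeff j ∈ K) → r₀ ∈ L → P.eval r₀ = 0 →
  (∀ r, P.eval r = 0 → ∃ τ : Qb ≃ₐ[K] Qb, τ r₀ = r) → ∀ f : Qb → ℝ,
  (Γ.card : ℝ) * (P.roots.map f).sum = P.natDegree * ∑ σ ∈ Γ, f (σ r₀)

/-- the height of the value of a linear form -/
def T_HLC : Prop := ∀ (s : Fin 3 → Qb) (K : IntermediateField ℚ Qb) (F : HFam K), ∃ c : ℝ,
  ∀ w : Fin 3 → Qb, F.ht ![lc s w, 0, 0] ≤ F.ht w + c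

/-- heights of the roots of a family of polynomials along a line -/
def T_HLN : Prop := ∀ (E Y : ℕ) (p : Fin (E + 1) → Polynomial Qb), (∀ i, (p i).natDegree ≤ Y) →
  (∃ i, (p i).coeff Y ≠ 0) → (∀ t : Qb, ∃ i, (p i).eval t ≠ 0) → p 0 ≠ 0 →
  ∀ (K : IntermediateField ℚ Qb) (F : HFam K), (∀ j, (p 0).coeff j ∈ K) → ∃ c : ℝ,
    ∀ t : ℤ, t ≠ 0 → (p 0).eval (t : Qb) ≠ 0 → ∀ s : Multiset Qb,
      ∑ j : Fin (E + 1), Polynomial.C ((p j).eval (t : Qb)) * Polynomial.X ^ (E - (j : ℕ)) =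
        Polynomial.C ((p 0).eval (t : Qb)) *
          (s.map fun r => Polynomial.X - Polynomial.C r).prod →
      Y * (F.arch.card * Real.log |(t : ℝ)|) ≤ (s.map fun r => F.ht ![r, 0, 0]).sum + c

/-- the equation of a linear form over the coordinates of a map -/
def T_CHR : Prop := ∀ (G : Tup 4 Qb) (a : ℕ) (s : Fin 3 → Qb), 1 ≤ a →
  (∀ i, (G i).IsHomogeneous a) → dh (G 0) ≠ 0 →
  Algebra.IsAlgebraic (IntermediateField.adjoin Qb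
    (Set.range fun i : Fin 3 => qt (G i.succ) (G 0))) (K3 Qb) →
  ∃ (E Y : ℕ) (P : Fin (E + 1) → Po 4 Qb) (c : Po 4 Qb), 1 ≤ E ∧
    (∀ j, (P j).IsHomogeneous Y) ∧ Cop P ∧ P 0 ≠ 0 ∧ c ≠ 0 ∧
    (∀ s' s'' : Fin 3 → Qb, dg Qb {lc s (xx Qb), lc s' (fun i : Fin 3 => qt (G i.succ) (G 0)),
      lc s'' (fun i : Fin 3 => qt (G i.succ) (G 0))} * E ≤
        Y * dg Qb (Set.range fun i : Fin 3 => qt (G i.succ) (G 0))) ∧
    (∀ w : Fin 3 → Qb, eval w (dh (G 0)) ≠ 0 →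
      ∑ j : Fin (E + 1), eval (pmap G (Fin.cons 1 w)) (P j) * lc s w ^ (E - (j : ℕ)) = 0) ∧
    ∀ x : Fin 4 → Qb, eval x c ≠ 0 → ∀ r : Qb,
      ∑ j : Fin (E + 1), eval x (P j) * r ^ (E - (j : ℕ)) = 0 →
      ∃ w : Fin 3 → Qb, eval w (dh (G 0)) ≠ 0 ∧ aff (pmap G (Fin.cons 1 w)) = aff x ∧ lc s w = r

/-- the preimages under the reduced iterate come from preimages under a higher iterate -/
def T_LFX : Prop := ∀ (F G : Tup 4 Qb) (h : Po 4 Qb) (d a m k : ℕ), 1 ≤ d → 1 ≤ a → m ≤ k →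
  (∀ i, (F i).IsHomogeneous d) → (∀ i, (G i).IsHomogeneous a) →
  Function.Injective (aeval F : Po 4 Qb →ₐ[Qb] Po 4 Qb) → (∀ i, it F m i = h * G i) →
  ∃ c : Po 4 Qb, c ≠ 0 ∧ ∀ x : Fin 4 → Qb, eval x c ≠ 0 → ∀ w : Fin 3 → Qb,
    eval w (dh (G 0)) ≠ 0 → aff (pmap G (Fin.cons 1 w)) = aff x →
    ∃ P : Fin 4 → Qb, (pmap F)^[k] P = x ∧ aff ((pmap F)^[k - m] P) = w

/-! ## C. The backward branch -/

/-- isolated solutions of systems of polynomial equations are algebraic -/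
def T_JAL : Prop := ∀ (K L : Type) [Field K] [CharZero K] [Field L] [Algebra K L] (N : ℕ)
  (f : Fin N → MvPolynomial (Fin N) K) (z : Fin N → L), (∀ i, aeval z (f i) = 0) →
  aeval z (jac f) ≠ 0 → ∀ i, IsAlgebraic K (z i)

/-- maps which are the identity modulo `p` are onto -/
def T_PRH : Prop := ∀ (N : ℕ) (p : Nat.Primes) (H : Tup N (O p)) (z : Fin N → O p),
  ∃ P : Fin N → O p, pmap (fl p H) P = z

/-- the integral preimage is in the closure of the orbit -/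
def T_PRV : Prop := ∀ (N : ℕ) (p : Nat.Primes) (H : Tup N (O p)) (z P : Fin N → O p),
  3 ≤ (p : ℕ) → pmap (fl p H) P = z → ∀ c ∈ van (flQ p H) (cO z), eval (cO P) c = 0

/-! ## D. Numbers -/

/-- the growth conditions for the backward heights are satisfied at some scale -/
def T_GR4 : Prop := ∀ (a Y : ℕ → ℕ) (e : ℕ) (c : ℝ), (∀ n, 1 ≤ a n) →
  (∀ m n, a (m + n) ≤ a m * a n) → (∀ m n, Y (m + n) ≤ a n ^ 2 * Y m) → 1 ≤ e →
  (e : ℝ) < c → (∀ N, ∃ n ≥ N, c ^ n ≤ (Y n : ℝ)) →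
  (∀ c' : ℝ, (e : ℝ) < c' → ∃ N, ∀ n ≥ N, (a n : ℝ) < c' ^ n) →
  ∃ m ≥ 1, 54 * e ^ m * Y m < Y (m + m) ∧
    5832 * (e ^ m * a m) * Y m ^ 2 ≤ Y (m + m) ^ 2 ∧ 5832 * (e ^ m * a m) ≤ Y (m + m)

/-! ## E. Backward heights on a curve -/

/-- degree of a graded extension, upper bound -/
def T_SLR : Prop := ∀ (k K L : Type) [Field k] [Field K] [Field L] [Algebra k K] [Algebra k L]
  [Algebra K L] [IsScalarTower k K L] (τ₀ : K →ₐ[k] K) (τ : L →ₐ[k] L) (s : L) (w : K) (D : ℕ),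
  1 ≤ D → IntermediateField.adjoin K {s} = ⊤ → w ≠ 0 →
  (∀ x, τ (algebraMap K L x) = algebraMap K L (τ₀ x)) → τ s = s ^ D * algebraMap K L w →
  FiniteDimensional τ₀.fieldRange K →
  Module.finrank τ.fieldRange L ≤ D * Module.finrank τ₀.fieldRange K

/-- independent powers give a lower bound for the degree -/
def T_IDG : Prop := ∀ (N n : ℕ) (k L : Type) [Field k] [Field L] [Algebra k L]
  (π : Po N k →ₐ[k] L), (∀ z : L, ∃ p q, π q ≠ 0 ∧ z = π p / π q) → ∀ (T : Tup N k)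
  (τ : L →ₐ[k] L), (∀ q, τ (π q) = π (aeval T q)) → FiniteDimensional τ.fieldRange L →
  ∀ θ : Po N k, (∀ g : Fin n → Po N k, π (∑ i : Fin n, θ ^ (i : ℕ) * aeval T (g i)) = 0 →
    ∀ i, π (g i) = 0) → n ≤ Module.finrank τ.fieldRange L

/-- homogeneous maps of small degree have at most one preimage up to scaling -/
def T_PC1 : Prop := ∀ (N : ℕ) (k : Type) [Field k] [IsAlgClosed k] [CharZero k] (T : Tup N k)
  (D : ℕ) (θ : Po N k) (Φ : Polynomial (Po N k)) (Δ : Po N k) (R : Fin N → Polynomial (Po N k)),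
  1 ≤ N → 1 ≤ D → (∀ i, (T i).IsHomogeneous D) → Prim T θ Φ Δ R → Φ.natDegree < 2 * D →
  ∃ c : Po N k, c ≠ 0 ∧ ∀ y : Fin N → k, eval y c ≠ 0 → ∀ S : Finset (Fin N → k),
    (∀ x ∈ S, pmap T x = y) → (∀ x ∈ S, ∀ x' ∈ S, ∀ t : k, (∀ i, x' i = t * x i) → x' = x) →
    S.card ≤ 1

/-- a hypersurface meets a curve in finitely many points -/
def T_BDV : Prop := ∀ (I : Ideal (Po 4 Qb)) (p S S' : Po 4 Qb) (D : ℕ), I.IsPrime →
  (∀ q ∈ I, ∀ m, homogeneousComponent m q ∈ I) → X 0 ∉ I → p.IsHomogeneous D → p ∉ I →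
  S ∈ I → S' ∈ I → S ≠ 0 → S' ≠ 0 → IsRelPrime S S' →
  {w : Fin 3 → Qb | ∃ y : Fin 4 → Qb, (∀ q ∈ I, eval y q = 0) ∧ y 0 ≠ 0 ∧ eval y p = 0 ∧
    w = aff y}.Finite

/-- growth of the heights on a totally invariant curve, local form -/
def T_LGL : Prop := ∀ (I : Ideal (Po 4 Qb)) (T : Tup 4 Qb) (D : ℕ) (θ : Po 4 Qb)
  (Φ : Polynomial (Po 4 Qb)) (Δ : Po 4 Qb) (R : Fin 4 → Polynomial (Po 4 Qb)) (S S' : Po 4 Qb),
  I.IsPrime → 1 ≤ D → (∀ i, (T i).IsHomogeneous D) →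
  (∀ q ∈ I, ∀ m, homogeneousComponent m q ∈ I) → X 0 ∉ I → (∀ q, aeval T q ∈ I ↔ q ∈ I) →
  Prim T θ Φ Δ R → Δ ∉ I → 2 * D ≤ Φ.natDegree →
  (∀ g : Fin Φ.natDegree → Po 4 Qb, (∑ i : Fin Φ.natDegree, θ ^ (i : ℕ) * aeval T (g i)) ∈ I →
    ∀ i, g i ∈ I) → S ∈ I → S' ∈ I → S ≠ 0 → S' ≠ 0 → IsRelPrime S S' →
  ∃ (n : ℕ) (p : Fin 3 → Po 4 Qb) (D' m' : Fin 3 → ℕ) (μ : Fin 3 → ℝ), 1 ≤ n ∧
    (∀ i, (p i).IsHomogeneous (D' i)) ∧ (∀ i, p i ∉ I) ∧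
    ∀ (K : IntermediateField ℚ Qb) (F : HFam K), ∃ c : ℝ, ∀ y : Fin 4 → Qb,
      (∀ q ∈ I, eval y q = 0) → y 0 ≠ 0 → (pmap T)^[n] y 0 ≠ 0 → (∀ i, eval y (p i) ≠ 0) →
      4 * F.ht (aff y) + ∑ i, μ i * (lg F (eval y (p i)) -
        m' i * lg F (y 0 * (pmap T)^[n] y 0)) ≤ F.ht (aff ((pmap T)^[n] y)) + c

/-- growth of the heights on a totally invariant curve -/
def T_LGV : Prop := ∀ (I : Ideal (Po 4 Qb)) (T : Tup 4 Qb) (D : ℕ) (θ : Po 4 Qb)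
  (Φ : Polynomial (Po 4 Qb)) (Δ : Po 4 Qb) (R : Fin 4 → Polynomial (Po 4 Qb)) (S S' : Po 4 Qb),
  I.IsPrime → 1 ≤ D → (∀ i, (T i).IsHomogeneous D) →
  (∀ q ∈ I, ∀ m, homogeneousComponent m q ∈ I) → X 0 ∉ I → (∀ q, aeval T q ∈ I ↔ q ∈ I) →
  Prim T θ Φ Δ R → Δ ∉ I → 2 * D ≤ Φ.natDegree →
  (∀ g : Fin Φ.natDegree → Po 4 Qb, (∑ i : Fin Φ.natDegree, θ ^ (i : ℕ) * aeval T (g i)) ∈ I →
    ∀ i, g i ∈ I) → S ∈ I → S' ∈ I → S ≠ 0 → S' ≠ 0 → IsRelPrime S S' →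
  ∃ n : ℕ, 1 ≤ n ∧ ∀ (K : IntermediateField ℚ Qb) (F : HFam K),
    (∀ i, ∀ x ∈ (T i).coeffs, x ∈ K) →
    (∀ τ : Qb ≃ₐ[K] Qb, ∀ q ∈ I, map ((τ : Qb ≃+* Qb) : Qb →+* Qb) q ∈ I) → ∃ c : ℝ,
    ∀ (Γ : Finset (Qb ≃ₐ[K] Qb)) (L : IntermediateField K Qb), Gc K Γ L →
      ∀ y : Fin 4 → Qb, (∀ i, y i ∈ L) → (∀ q ∈ I, eval y q = 0) → y 0 ≠ 0 →
        (pmap T)^[n] y 0 ≠ 0 → 2 * av F Γ y ≤ av F Γ ((pmap T)^[n] y) + Γ.card * c

end Pool.Agent.H18.TE
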