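import Pool.Agent.H8.TD.Targets

/-!
# Zariski dense orbits in dimension three by backward heights: definitions
-/

open MvPolynomial
open Pool.Agent.H12.ZD (pmap v O Res DenseOrbit NoInv)
open Pool.Agent.H18.HIT
open Pool.Agent.H8.ZA (HFam Const NA sz)
open Pool.Agent.H8.TD

namespace Pool.Agent.H18.TE

/-- the sum of the logarithms of the absolute values of a number -/
noncomputable def lg {K : IntermediateField ℚ Qb} (F : HFam K) (x : Qb) : ℝ :=
  ∑ᶠ i, Real.log (F.abv i x)

/-- a finite set of automorphisms over `K` which acts on `L` like a finite group -/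
structure Gc (K : IntermediateField ℚ Qb) (Γ : Finset (Qb ≃ₐ[K] Qb))
    (L : IntermediateField K Qb) : Prop where
  ne : Γ.Nonempty
  perm : ∀ τ : Qb ≃ₐ[K] Qb, ∃ π : Equiv.Perm Γ, ∀ (σ : Γ), ∀ c ∈ L,
    τ ((σ : Qb ≃ₐ[K] Qb) c) = (π σ : Qb ≃ₐ[K] Qb) c

/-- the sum of the heights of the conjugates of a point -/
noncomputable def av {K : IntermediateField ℚ Qb} (F : HFam K) (Γ : Finset (Qb ≃ₐ[K] Qb))
    (y : Fin 4 → Qb) : ℝ := ∑ σ ∈ Γ, F.ht (aff fun i => σ (y i))

end Pool.Agent.H18.TE
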